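import Pool.Agent.H79DW.Dual

/-!
# Serre duality on `C` by a residue functional: submodules of an ambient module
-/

set_option autoImplicit false

open LaurentPolynomial

universe u v

namespace Pool.Agent.DWC

variable {k : Type u} [Field k] {X : Nbhd k} {V : Type v} [AddCommGroup V] [Module X.B V]

theorem nonneg_of_hom_zeroV {V₀ V₁ : AddSubgroup V}
    (hV₀ : ∀ b ∈ X.B₀, ∀ v ∈ V₀, b • v ∈ V₀) (hV₁ : ∀ b ∈ X.B₁, ∀ v ∈ V₁, b • v ∈ V₁)
    {G : Submodule X.B V}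
    (loc0 : ∀ g ∈ G, ∃ ν : ℕ, ∃ δ ∈ X.I • G, (X.x : X.B) ^ ν • g + δ ∈ V₀)
    (loc1 : ∀ g ∈ G, ∃ ν : ℕ, ∃ δ ∈ X.I • G, (X.w : X.B) ^ ν • g + δ ∈ V₁)
    (hom : ∀ φ : G →+ k[T;T⁻¹], (∀ (b : X.B) (j : G), φ (b • j) = X.res b * φ j) →
      (∀ j : G, (j : V) ∈ V₀ → φ j ∈ Reg0 k) →
      (∀ j : G, (j : V) ∈ V₁ → φ j ∈ RegInf k (-1)) → φ = 0) :
    ∀ f ∈ G, ∃ a ∈ G, a ∈ V₀ ∧ ∃ c ∈ G, c ∈ V₁ ∧ ∃ δ ∈ X.I • G,
      f = a + (X.w : X.B) • c + δ := by
  classical
  let _ : Module k V := Module.compHom V (algebraMap k X.B)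
  have hsmul : ∀ (r : k) (v : V), r • v = algebraMap k X.B r • v := fun _ _ => rfl
  have hIG : ∀ δ ∈ X.I • G, δ ∈ G := fun δ hδ => Submodule.smul_le_right hδ
  by_contra hcon
  push Not at hcon
  obtain ⟨f, hf, hno⟩ := hcon
  -- the sums
  let K : Submodule k V :=
    { carrier := {f | ∃ a ∈ G, a ∈ V₀ ∧ ∃ c ∈ G, c ∈ V₁ ∧ ∃ δ ∈ X.I • G,
        f = a + (X.w : X.B) • c + δ}
      add_mem' := by
        rintro _ _ ⟨a, ha, ha0, c, hc, hc1, δ, hδ, rfl⟩ ⟨a', ha', ha0', c', hc', hc1', δ', hδ', rfl⟩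
        exact ⟨a + a', add_mem ha ha', add_mem ha0 ha0', c + c', add_mem hc hc',
          add_mem hc1 hc1', δ + δ', add_mem hδ hδ', by rw [smul_add]; abel⟩
      zero_mem' := ⟨0, zero_mem _, zero_mem _, 0, zero_mem _, zero_mem _, 0, zero_mem _, by simp⟩
      smul_mem' := by
        rintro r _ ⟨a, ha, ha0, c, hc, hc1, δ, hδ, rfl⟩
        refine ⟨algebraMap k X.B r • a, G.smul_mem _ ha, hV₀ _ (X.B₀.algebraMap_mem r) _ ha0,
          algebraMap k X.B r • c, G.smul_mem _ hc, hV₁ _ (X.B₁.algebraMap_mem r) _ hc1,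
          algebraMap k X.B r • δ, Submodule.smul_mem _ _ hδ, ?_⟩
        rw [hsmul, smul_add, smul_add, smul_comm (algebraMap k X.B r) (X.w : X.B) c] }
  have hfK : f ∉ K := by
    rintro ⟨a, ha, ha0, c, hc, hc1, δ, hδ, h⟩
    exact hno a ha ha0 c hc hc1 δ hδ h
  obtain ⟨l, hlf, hlK⟩ := Submodule.exists_le_ker_of_notMem hfK
  have h0 : ∀ j ∈ G, j ∈ V₀ → l j = 0 := fun j hj hj0 =>
    hlK ⟨j, hj, hj0, 0, zero_mem _, zero_mem _, 0, zero_mem _, by simp⟩
  have h1 : ∀ j ∈ G, j ∈ V₁ → l ((X.w : X.B) • j) = 0 := fun j hj hj1 =>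
    hlK ⟨0, zero_mem _, zero_mem _, j, hj, hj1, 0, zero_mem _, by simp⟩
  have hI : ∀ j ∈ X.I • G, l j = 0 := fun j hj =>
    hlK ⟨0, zero_mem _, zero_mem _, 0, zero_mem _, zero_mem _, j, hj, by simp⟩
  have z0 : ∀ (j : V) (ν : ℕ) (δ : V), j ∈ G → δ ∈ X.I • G → (X.x : X.B) ^ ν • j + δ ∈ V₀ →
      ∀ i : ℤ, i < -ν → l (xz X (-i - 1) • j) = 0 := by
    intro j ν δ hj hδ h i hi
    obtain ⟨n, hn⟩ : ∃ n : ℕ, -i - 1 = (ν : ℤ) + n := ⟨(-i - 1 - ν).toNat, by omega⟩
    have e : xz X (-i - 1) • j = (X.x : X.B) ^ n • ((X.x : X.B) ^ ν • j + δ) -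
        (X.x : X.B) ^ n • δ := by
      rw [hn, xz_add, xz_nat, xz_nat, smul_add, smul_smul, add_sub_cancel_right, mul_comm]
    rw [e, map_sub, h0 _ (G.smul_mem _ (add_mem (G.smul_mem _ hj) (hIG _ hδ)))
      (hV₀ _ (X.B₀.pow_mem X.x_mem n) _ h), hI _ (Submodule.smul_mem _ _ hδ), sub_zero]
  have z1 : ∀ (j : V) (ν : ℕ) (δ : V), j ∈ G → δ ∈ X.I • G → (X.w : X.B) ^ ν • j + δ ∈ V₁ →
      ∀ i : ℤ, (ν : ℤ) ≤ i → l (xz X (-i - 1) • j) = 0 := by
    intro j ν δ hj hδ h i hi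
    obtain ⟨n, hn⟩ : ∃ n : ℕ, i = (ν : ℤ) + n := ⟨(i - ν).toNat, by omega⟩
    have hm : xz X (-i - 1) - (X.w : X.B) ^ (ν + n + 1) ∈ X.I := by
      rw [Nbhd.mem_I, map_sub, res_xz, res_w_pow, sub_eq_zero]
      congr 1
      push_cast
      omega
    have e : xz X (-i - 1) • j =
        (X.w : X.B) • ((X.w : X.B) ^ n • ((X.w : X.B) ^ ν • j + δ)) -
        (X.w : X.B) ^ (n + 1) • δ + (xz X (-i - 1) - (X.w : X.B) ^ (ν + n + 1)) • j := by
      rw [smul_add, smul_add, smul_smul, smul_smul, smul_smul, sub_smul,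
        show (X.w : X.B) * (X.w : X.B) ^ n = (X.w : X.B) ^ (n + 1) by ring,
        show (X.w : X.B) ^ (n + 1) * (X.w : X.B) ^ ν = (X.w : X.B) ^ (ν + n + 1) by ring]
      abel
    rw [e, map_add, map_sub, h1 _ (G.smul_mem _ (add_mem (G.smul_mem _ hj) (hIG _ hδ)))
      (hV₁ _ (X.B₁.pow_mem X.w_mem n) _ h),
      hI _ (Submodule.smul_mem _ _ hδ), hI _ (Submodule.smul_mem_smul hm hj), sub_zero, add_zero]
  have hfin : ∀ j : G, (Function.support fun i : ℤ => l (xz X (-i - 1) • (j : V))).Finite := by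
    intro j
    obtain ⟨ν, δ, hδ, h⟩ := loc0 j j.2
    obtain ⟨ν', δ', hδ', h'⟩ := loc1 j j.2
    refine (Set.finite_Icc (-ν : ℤ) ν').subset ?_
    intro i hi
    rw [Function.mem_support] at hi
    constructor
    · by_contra hlt
      exact hi (z0 j ν δ j.2 hδ h i (by omega))
    · by_contra hlt
      exact hi (z1 j ν' δ' j.2 hδ' h' i (by omega))
  let φ : G →+ k[T;T⁻¹] :=
    { toFun := fun j => AddMonoidAlgebra.ofCoeff (Finsupp.ofSupportFinite _ (hfin j))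
      map_zero' := by
        apply AddMonoidAlgebra.coeff_injective
        ext i
        simp [Finsupp.ofSupportFinite_coe]
      map_add' := by
        intro j j'
        apply AddMonoidAlgebra.coeff_injective
        ext i
        simp [Finsupp.ofSupportFinite_coe, smul_add] }
  have hφ : ∀ (j : G) (i : ℤ), (φ j).coeff i = l (xz X (-i - 1) • (j : V)) := fun j i => rfl
  have hφI : ∀ b ∈ X.I, ∀ j : G, φ (b • j) = 0 := by
    intro b hb j
    apply AddMonoidAlgebra.coeff_injective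
    ext i
    rw [hφ]
    refine hI _ (Submodule.smul_mem _ _ ?_)
    exact Submodule.smul_mem_smul hb j.2
  have hlift : ∀ f : k[T;T⁻¹], ∃ b : X.B, X.res b = f ∧ ∀ j : G, φ (b • j) = f * φ j := by
    intro f
    induction f using LaurentPolynomial.induction_on' with
    | add p q hp hq =>
      obtain ⟨a, ha, ha'⟩ := hp
      obtain ⟨b, hb, hb'⟩ := hq
      exact ⟨a + b, by rw [map_add, ha, hb], fun j => by rw [add_smul, map_add, ha', hb', add_mul]⟩
    | C_mul_T n a =>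
      refine ⟨algebraMap k X.B a * xz X n, ?_, fun j => ?_⟩
      · rw [map_mul, res_xz, AlgHom.commutes]; rfl
      · apply AddMonoidAlgebra.coeff_injective
        ext i
        have e : xz X (-i - 1) • (((algebraMap k X.B a * xz X n) • j : G) : V) =
            a • (xz X (-(i - n) - 1) • (j : V)) := by
          rw [show -(i - n) - 1 = (-i - 1) + n by ring, xz_add, hsmul]
          show xz X (-i - 1) • ((algebraMap k X.B a * xz X n) • (j : V)) = _
          rw [smul_smul, smul_smul]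
          congr 1
          ring
        rw [hφ, e, map_smul, ← hφ, ← single_eq_C_mul_T, smul_eq_mul]
        exact (AddMonoidAlgebra.coeff_single_mul_eq_mul_coeff (m₁ := i) (i - n)
          (by intro z _; constructor <;> intro h <;> omega)).symm
  have hsl : ∀ (b : X.B) (j : G), φ (b • j) = X.res b * φ j := by
    intro b j
    obtain ⟨b', hb', h⟩ := hlift (X.res b)
    have h2 : φ ((b - b') • j) = 0 := hφI _ (by rw [Nbhd.mem_I, map_sub, hb', sub_self]) j
    rw [sub_smul, map_sub, h, sub_eq_zero] at h2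
    exact h2
  have hzero := hom φ hsl (fun j hj i hi => by
      rw [hφ]
      exact z0 j 0 0 j.2 (zero_mem _) (by simpa using hj) i (by simpa using hi))
    (fun j hj i hi => by
      rw [hφ]
      exact z1 j 0 0 j.2 (zero_mem _) (by simpa using hj) i (by push_cast; omega))
  apply hlf
  have := hφ ⟨f, hf⟩ (-1)
  rw [hzero] at this
  simpa [xz_zero] using this.symm

end Pool.Agent.DWC
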