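import Pool.Agent.H31DW.Step3

/-!
# Serre duality on `C` by a residue functional
-/

set_option autoImplicit false

open LaurentPolynomial

universe u

namespace Pool.Agent.DWC

variable {k : Type u} [Field k] {X : Nbhd k}

/-- the integer powers of `x` -/
def xz (X : Nbhd k) (i : ℤ) : X.B := ((X.x ^ i : X.Bˣ) : X.B)

theorem xz_add (i j : ℤ) : xz X (i + j) = xz X i * xz X j := by
  simp [xz, zpow_add]

theorem xz_nat (n : ℕ) : xz X n = (X.x : X.B) ^ n := by
  simp [xz]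

theorem xz_zero : xz X 0 = 1 := by simp [xz]

theorem res_xz (i : ℤ) : X.res (xz X i) = T i := by
  obtain ⟨n, rfl | rfl⟩ := i.eq_nat_or_neg
  · rw [xz_nat, res_x_pow]
  · have h : X.res (xz X (-n)) * X.res (xz X n) = 1 := by
      rw [← map_mul, ← xz_add]
      simp [xz_zero]
    have h2 : (T (-n : ℤ) : k[T;T⁻¹]) * T n = 1 := by
      rw [← T_add]; simp
    rw [xz_nat, res_x_pow] at h
    calc X.res (xz X (-n)) = X.res (xz X (-n)) * (T n * T (-n : ℤ)) := by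
          rw [mul_comm (T (n : ℤ)), h2, mul_one]
      _ = T (-n : ℤ) := by rw [← mul_assoc, h, one_mul]

section

variable {J : Ideal X.B} (l : X.B →ₗ[k] k)

theorem l_zero₀ (h0 : ∀ j ∈ part₀ J, l j = 0) (hI : ∀ j ∈ X.I * J, l j = 0) {j : X.B} {ν : ℕ}
    {δ : X.B} (hδ : δ ∈ X.I * J) (h : (X.x : X.B) ^ ν * j + δ ∈ part₀ J) (i : ℤ) (hi : i < -ν) :
    l (xz X (-i - 1) * j) = 0 := by
  obtain ⟨n, hn⟩ : ∃ n : ℕ, -i - 1 = (ν : ℤ) + n := ⟨(-i - 1 - ν).toNat, by omega⟩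
  have e : xz X (-i - 1) * j = (X.x : X.B) ^ n * ((X.x : X.B) ^ ν * j + δ) -
      (X.x : X.B) ^ n * δ := by
    rw [hn, xz_add, xz_nat, xz_nat]; ring
  rw [e, map_sub, h0 _ (mul_mem₀ (X.B₀.pow_mem X.x_mem n) h), hI _ (Ideal.mul_mem_left _ _ hδ),
    sub_zero]

theorem l_zero₁ (h1 : ∀ j ∈ part₁ J, l (X.w * j) = 0) (hI : ∀ j ∈ X.I * J, l j = 0) {j : X.B}
    (hj : j ∈ J) {ν : ℕ}
    {δ : X.B} (hδ : δ ∈ X.I * J) (h : (X.w : X.B) ^ ν * j + δ ∈ part₁ J) (i : ℤ) (hi : (ν : ℤ) ≤ i) :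
    l (xz X (-i - 1) * j) = 0 := by
  obtain ⟨n, hn⟩ : ∃ n : ℕ, i = (ν : ℤ) + n := ⟨(i - ν).toNat, by omega⟩
  have hm : xz X (-i - 1) - (X.w : X.B) ^ (ν + n + 1) ∈ X.I := by
    rw [Nbhd.mem_I, map_sub, res_xz, res_w_pow, sub_eq_zero]
    congr 1
    push_cast
    omega
  have e : xz X (-i - 1) * j = X.w * ((X.w : X.B) ^ n * ((X.w : X.B) ^ ν * j + δ)) -
      (X.w : X.B) ^ (n + 1) * δ + (xz X (-i - 1) - (X.w : X.B) ^ (ν + n + 1)) * j := by
    ring
  rw [e, map_add, map_sub, h1 _ (mul_mem₁ (X.B₁.pow_mem X.w_mem n) h),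
    hI _ (Ideal.mul_mem_left _ _ hδ), hI _ (Ideal.mul_mem_mul hm hj), sub_zero, add_zero]

end

theorem nonneg_of_hom_zero {J : Ideal X.B}
    (loc0 : ∀ j ∈ J, ∃ ν : ℕ, ∃ δ ∈ X.I * J, (X.x : X.B) ^ ν * j + δ ∈ part₀ J)
    (loc1 : ∀ j ∈ J, ∃ ν : ℕ, ∃ δ ∈ X.I * J, (X.w : X.B) ^ ν * j + δ ∈ part₁ J)
    (hom : ∀ φ : J →+ k[T;T⁻¹], (∀ (b : X.B) (j : J), φ (b • j) = X.res b * φ j) →
      (∀ j : J, (j : X.B) ∈ X.B₀ → φ j ∈ Reg0 k) →
      (∀ j : J, (j : X.B) ∈ X.B₁ → φ j ∈ RegInf k (-1)) → φ = 0) :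
    NonNeg J (part₀ J) (part₁ J) := by
  classical
  by_contra hcon
  unfold NonNeg at hcon
  push Not at hcon
  obtain ⟨f, hf, hno⟩ := hcon
  -- the sums
  let K : Submodule k X.B :=
    { carrier := {f | ∃ a ∈ part₀ J, ∃ c ∈ part₁ J, ∃ δ ∈ X.I * J, f = a + X.w * c + δ}
      add_mem' := by
        rintro _ _ ⟨a, ha, c, hc, δ, hδ, rfl⟩ ⟨a', ha', c', hc', δ', hδ', rfl⟩
        exact ⟨a + a', add_mem ha ha', c + c', add_mem hc hc', δ + δ', add_mem hδ hδ', by ring⟩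
      zero_mem' := ⟨0, zero_mem _, 0, zero_mem _, 0, zero_mem _, by simp⟩
      smul_mem' := by
        rintro r _ ⟨a, ha, c, hc, δ, hδ, rfl⟩
        refine ⟨algebraMap k X.B r * a, mul_mem₀ (X.B₀.algebraMap_mem r) ha,
          algebraMap k X.B r * c, mul_mem₁ (X.B₁.algebraMap_mem r) hc,
          algebraMap k X.B r * δ, Ideal.mul_mem_left _ _ hδ, ?_⟩
        rw [Algebra.smul_def]; ring }
  have hfK : f ∉ K := by
    rintro ⟨a, ha, c, hc, δ, hδ, h⟩
    exact hno a ha c hc δ hδ h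
  obtain ⟨l, hlf, hlK⟩ := Submodule.exists_le_ker_of_notMem hfK
  have h0 : ∀ j ∈ part₀ J, l j = 0 := fun j hj =>
    hlK ⟨j, hj, 0, zero_mem _, 0, zero_mem _, by simp⟩
  have h1 : ∀ j ∈ part₁ J, l (X.w * j) = 0 := fun j hj =>
    hlK ⟨0, zero_mem _, j, hj, 0, zero_mem _, by simp⟩
  have hI : ∀ j ∈ X.I * J, l j = 0 := fun j hj =>
    hlK ⟨0, zero_mem _, 0, zero_mem _, j, hj, by simp⟩
  have hfin : ∀ j : J, (Function.support fun i : ℤ => l (xz X (-i - 1) * j)).Finite := by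
    intro j
    obtain ⟨ν, δ, hδ, h⟩ := loc0 j j.2
    obtain ⟨ν', δ', hδ', h'⟩ := loc1 j j.2
    refine (Set.finite_Icc (-ν : ℤ) ν').subset ?_
    intro i hi
    rw [Function.mem_support] at hi
    constructor
    · by_contra hlt
      exact hi (l_zero₀ l h0 hI hδ h i (by omega))
    · by_contra hlt
      exact hi (l_zero₁ l h1 hI j.2 hδ' h' i (by omega))
  let φ : J →+ k[T;T⁻¹] :=
    { toFun := fun j => AddMonoidAlgebra.ofCoeff (Finsupp.ofSupportFinite _ (hfin j))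
      map_zero' := by
        apply AddMonoidAlgebra.coeff_injective
        ext i
        simp [Finsupp.ofSupportFinite_coe]
      map_add' := by
        intro j j'
        apply AddMonoidAlgebra.coeff_injective
        ext i
        simp [Finsupp.ofSupportFinite_coe, mul_add] }
  have hφ : ∀ (j : J) (i : ℤ), (φ j).coeff i = l (xz X (-i - 1) * j) := fun j i => rfl
  have hφI : ∀ b ∈ X.I, ∀ j : J, φ (b • j) = 0 := by
    intro b hb j
    apply AddMonoidAlgebra.coeff_injective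
    ext i
    rw [hφ]
    refine hI _ (Ideal.mul_mem_left _ _ ?_)
    exact Ideal.mul_mem_mul hb j.2
  have hlift : ∀ f : k[T;T⁻¹], ∃ b : X.B, X.res b = f ∧ ∀ j : J, φ (b • j) = f * φ j := by
    intro f
    induction f using LaurentPolynomial.induction_on' with
    | add p q hp hq =>
      obtain ⟨a, ha, ha'⟩ := hp
      obtain ⟨b, hb, hb'⟩ := hq
      exact ⟨a + b, by rw [map_add, ha, hb], fun j => by rw [add_smul, map_add, ha', hb', add_mul]⟩
    | C_mul_T n a =>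
      refine ⟨algebraMap k X.B a * xz X n, ?_, fun j => ?_⟩
      · rw [map_mul, res_xz, AlgHom.commutes]; rfl
      · apply AddMonoidAlgebra.coeff_injective
        ext i
        have e : xz X (-i - 1) * (((algebraMap k X.B a * xz X n) • j : J) : X.B) =
            a • (xz X (-(i - n) - 1) * (j : X.B)) := by
          rw [show -(i - n) - 1 = (-i - 1) + n by ring, xz_add, Algebra.smul_def]
          show xz X (-i - 1) * ((algebraMap k X.B a * xz X n) * (j : X.B)) = _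
          ring
        rw [hφ, e, map_smul, ← hφ, ← single_eq_C_mul_T, smul_eq_mul]
        exact (AddMonoidAlgebra.coeff_single_mul_eq_mul_coeff (m₁ := i) (i - n)
          (by intro z _; constructor <;> intro h <;> omega)).symm
  have hsl : ∀ (b : X.B) (j : J), φ (b • j) = X.res b * φ j := by
    intro b j
    obtain ⟨b', hb', h⟩ := hlift (X.res b)
    have h2 : φ ((b - b') • j) = 0 := hφI _ (by rw [Nbhd.mem_I, map_sub, hb', sub_self]) j
    rw [sub_smul, map_sub, h, sub_eq_zero] at h2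
    exact h2
  have hzero := hom φ hsl (fun j hj i hi => by
      rw [hφ]
      exact l_zero₀ l h0 hI (ν := 0) (δ := 0) (zero_mem _) (by simpa using ⟨j.2, hj⟩) i (by simpa using hi))
    (fun j hj i hi => by
      rw [hφ]
      exact l_zero₁ l h1 hI j.2 (ν := 0) (δ := 0) (zero_mem _) (by simpa using ⟨j.2, hj⟩) i
        (by push_cast; omega))
  apply hlf
  have := hφ ⟨f, hf⟩ (-1)
  rw [hzero] at this
  simpa [xz_zero] using this.symm

end Pool.Agent.DWC
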